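import Pool.Agent.H93.EB.Basic

/-!
# Stage 1 (MP_c59857_nt): large two-point correlations give a large Fourier coefficient on many
short windows
-/

set_option autoImplicit false

namespace Pool.Agent.H70.STG

open Finset Pool.Agent.H6.N4D Pool.Agent.H93.EB

lemma ee_pow (x : ℝ) (r : ℕ) : ee (r * x) = ee x ^ r := by
  induction r with
  | zero => simp [ee_zero]
  | succ r ih => rw [pow_succ, ← ih, ← ee_add]; congr 1; push_cast; ring

lemma ee_eq_one {x : ℝ} (h : ee x = 1) : ∃ k : ℤ, x = k := by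
  unfold ee at h
  rw [Complex.exp_eq_one_iff] at h
  obtain ⟨k, hk⟩ := h
  refine ⟨k, ?_⟩
  have h2 : ((2 * Real.pi * x : ℝ) : ℂ) = ((k * (2 * Real.pi) : ℝ) : ℂ) := by
    have h3 : ((2 * Real.pi * x : ℝ) : ℂ) * Complex.I = (k * (2 * Real.pi)) * Complex.I := by
      rw [hk]; ring
    have := mul_right_cancel₀ Complex.I_ne_zero h3
    rw [this]; push_cast; ring
  have h4 : 2 * Real.pi * x = k * (2 * Real.pi) := by exact_mod_cast h2
  have h5 : (2 * Real.pi) ≠ 0 := by positivity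
  have : 2 * Real.pi * (x - k) = 0 := by linarith
  rcases mul_eq_zero.1 this with h | h
  · exact absurd h h5
  · linarith

lemma ee_conj (x : ℝ) : (starRingEnd ℂ) (ee x) = ee (-x) := by
  unfold ee
  rw [← Complex.exp_conj]
  congr 1
  rw [map_mul, Complex.conj_I, Complex.conj_ofReal]
  push_cast; ring

/-- orthogonality -/
lemma orth (P : ℕ) (hP : 0 < P) (t : ℤ) :
    ∑ r ∈ range P, ee ((r : ℝ) * (t / P)) = if (P : ℤ) ∣ t then (P : ℂ) else 0 := by
  have hPR : (P : ℝ) ≠ 0 := by exact_mod_cast hP.ne'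
  have h1 : ∀ r : ℕ, ee ((r : ℝ) * (t / P)) = ee ((t : ℝ) / P) ^ r := fun r => ee_pow _ r
  rw [sum_congr rfl (fun r _ => h1 r)]
  split_ifs with h
  · obtain ⟨c, hc⟩ := h
    have h2 : (t : ℝ) / P = (c : ℤ) := by
      rw [hc]; push_cast; field_simp
    rw [h2, ee_int]; simp
  · have h3 : ee ((t : ℝ) / P) ≠ 1 := by
      intro he
      obtain ⟨k, hk⟩ := ee_eq_one he
      apply h
      refine ⟨k, ?_⟩
      have : (t : ℝ) = P * k := by rw [← hk]; field_simp
      exact_mod_cast this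
    have h4 : ee ((t : ℝ) / P) ^ P = 1 := by
      rw [← ee_pow, mul_div_cancel₀ _ hPR, ee_int]
    have h5 := geom_sum_mul (ee ((t : ℝ) / P)) P
    rw [h4, sub_self] at h5
    exact (mul_eq_zero.1 h5).resolve_right (sub_ne_zero.2 h3)

/-- the discrete Fourier transform -/
noncomputable def ft (F : ℕ → ℂ) (L P : ℕ) (r : ℤ) : ℂ :=
  ∑ y ∈ range L, F y * ee (-((r : ℝ) * y / P))

lemma ft_add (F : ℕ → ℂ) (L P : ℕ) (hP : 0 < P) (r : ℤ) : ft F L P (r + P) = ft F L P r := by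
  have hPR : (P : ℝ) ≠ 0 := by exact_mod_cast hP.ne'
  unfold ft
  apply sum_congr rfl
  intro y _
  congr 1
  have : -(((r + P : ℤ) : ℝ) * y / P) = -((r : ℝ) * y / P) - ((y : ℤ) : ℝ) := by
    push_cast; field_simp; ring
  rw [this, ee_sub_int]

/-- the transform of the autocorrelation -/
lemma corr (F : ℕ → ℂ) (L P : ℕ) (hP : 0 < P) (h : ℤ) :
    ∑ r ∈ range P, (‖ft F L P r‖ : ℂ) ^ 2 * ee (-((r : ℝ) * (h / P))) =
      P * ∑ y ∈ range L, ∑ y' ∈ range L,
        if (P : ℤ) ∣ (y' - y - h) then F y * (starRingEnd ℂ) (F y') else 0 := by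
  have hPR : (P : ℝ) ≠ 0 := by exact_mod_cast hP.ne'
  have h1 : ∀ r : ℕ, (‖ft F L P r‖ : ℂ) ^ 2 * ee (-((r : ℝ) * (h / P))) =
      ∑ y ∈ range L, ∑ y' ∈ range L, F y * (starRingEnd ℂ) (F y') *
        ee ((r : ℝ) * (((y' - y - h : ℤ) : ℝ) / P)) := by
    intro r
    rw [← Complex.mul_conj']
    unfold ft
    rw [map_sum, sum_mul_sum, sum_mul]
    apply sum_congr rfl
    intro y _
    rw [sum_mul]
    apply sum_congr rfl
    intro y' _
    rw [map_mul, ee_conj]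
    have h2 : F y * ee (-(((r : ℕ) : ℤ) : ℝ) * y / P) = F y * ee (-(((r : ℤ) : ℝ) * y / P)) := by
      congr 2; ring
    have h3 : ee (-(((r : ℤ) : ℝ) * y / P)) * ee (- -(((r : ℤ) : ℝ) * y' / P)) *
        ee (-((r : ℝ) * (h / P))) = ee ((r : ℝ) * (((y' - y - h : ℤ) : ℝ) / P)) := by
      rw [← ee_add, ← ee_add]; congr 1; push_cast; ring
    rw [← h3]; ring
  rw [sum_congr rfl (fun r _ => h1 r), sum_comm, mul_sum]
  apply sum_congr rfl
  intro y _
  rw [sum_comm, mul_sum]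
  apply sum_congr rfl
  intro y' _
  rw [← mul_sum, orth P hP]
  split_ifs <;> ring

/-- Parseval -/
lemma parseval (F : ℕ → ℂ) (L P : ℕ) (hL : L ≤ P) (hP : 0 < P) :
    ∑ r ∈ range P, ‖ft F L P r‖ ^ 2 = P * ∑ y ∈ range L, ‖F y‖ ^ 2 := by
  have h1 := corr F L P hP 0
  have h2 : ∑ r ∈ range P, (‖ft F L P r‖ : ℂ) ^ 2 * ee (-((r : ℝ) * (((0 : ℤ) : ℝ) / P))) =
      ((∑ r ∈ range P, ‖ft F L P r‖ ^ 2 : ℝ) : ℂ) := by
    push_cast
    apply sum_congr rfl
    intro r _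
    simp [ee_zero]
  rw [h2] at h1
  have h3 : ∑ y ∈ range L, ∑ y' ∈ range L,
      (if (P : ℤ) ∣ ((y' : ℤ) - y - 0) then F y * (starRingEnd ℂ) (F y') else 0) =
      ((∑ y ∈ range L, ‖F y‖ ^ 2 : ℝ) : ℂ) := by
    push_cast
    apply sum_congr rfl
    intro y hy
    rw [sum_eq_single y]
    · simp [Complex.mul_conj']
    · intro y' hy' hne
      rw [if_neg]
      intro hd
      rw [sub_zero] at hd
      have := mem_range.1 hy
      have := mem_range.1 hy'
      have hd2 := Int.eq_zero_of_abs_lt_dvd hd (by rw [abs_lt]; constructor <;> omega)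
      omega
    · intro h; exact absurd hy h
  rw [h3] at h1
  exact_mod_cast h1

/-- the autocorrelation at a small natural shift -/
lemma corr_nat (F : ℕ → ℂ) (L h : ℕ) (hL : 0 < L) (hh : h < L) :
    ∑ r ∈ range (2 * L), (‖ft F L (2 * L) r‖ : ℂ) ^ 2 *
        ee (-((r : ℝ) * ((h : ℝ) / ((2 * L : ℕ) : ℝ)))) =
      ((2 * L : ℕ) : ℂ) * ∑ y ∈ range L, if y + h < L then F y * (starRingEnd ℂ) (F (y + h))
        else 0 := by
  have h1 := corr F L (2 * L) (by omega) (h : ℤ)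
  rw [show (((h : ℤ) : ℝ)) = (h : ℝ) by push_cast; rfl] at h1
  rw [h1]
  congr 1
  apply sum_congr rfl
  intro y hy
  have hy' := mem_range.1 hy
  split_ifs with h2
  · rw [sum_eq_single (y + h)]
    · rw [if_pos]
      push_cast
      have : (y : ℤ) + h - y - h = 0 := by ring
      rw [this]; exact dvd_zero _
    · intro y' hy'' hne
      rw [if_neg]
      intro hd
      have := mem_range.1 hy''
      have hd2 := Int.eq_zero_of_abs_lt_dvd hd (by
        rw [abs_lt]; push_cast; constructor <;> omega)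
      omega
    · intro h; exact absurd (mem_range.2 h2) h
  · apply sum_eq_zero
    intro y' hy''
    rw [if_neg]
    intro hd
    have := mem_range.1 hy''
    have hd2 := Int.eq_zero_of_abs_lt_dvd hd (by
      rw [abs_lt]; push_cast; constructor <;> omega)
    omega

/-- a small multiple of `x` is near an integer: `x` is near a fraction -/
lemma near_frac (c : ℕ) (hc : 1 ≤ c) (x δ : ℝ) (hδ : 0 ≤ δ) (h : nd (c * x) ≤ δ) :
    ∃ j ∈ range c, nd (x - (j : ℝ) / c) ≤ δ := by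
  obtain ⟨k, hk⟩ := exists_int (c * x)
  have hcR : (0 : ℝ) < c := by exact_mod_cast hc
  have hcR1 : (1 : ℝ) ≤ c := by exact_mod_cast hc
  have hcz : (0 : ℤ) < c := by exact_mod_cast hc
  refine ⟨(k % c).toNat, ?_, ?_⟩
  · rw [mem_range]
    have h1 := Int.emod_lt_of_pos k hcz
    have h2 := Int.emod_nonneg k hcz.ne'
    omega
  · have h2 := Int.emod_nonneg k hcz.ne'
    have h3 : (((k % c).toNat : ℕ) : ℝ) = ((k % c : ℤ) : ℝ) := by
      have : (((k % c).toNat : ℕ) : ℤ) = k % c := Int.toNat_of_nonneg h2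
      exact_mod_cast this
    rw [h3]
    have h4 : (k : ℝ) = c * ((k / c : ℤ) : ℝ) + ((k % c : ℤ) : ℝ) := by
      have := Int.mul_ediv_add_emod k c
      exact_mod_cast this.symm
    have h5 : x - ((k % c : ℤ) : ℝ) / c - ((k / c : ℤ) : ℝ) = (c * x - k) / c := by
      rw [h4]; field_simp; ring
    refine (nd_le _ (k / c)).trans ?_
    rw [h5, abs_div, abs_of_pos hcR, hk]
    calc nd (c * x) / c ≤ δ / c := div_le_div_of_nonneg_right h hcR.le
      _ ≤ δ := div_le_self hδ hcR1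

/-- periodic sums -/
lemma sum_shift (g : ℤ → ℝ) (P : ℕ) (hg : ∀ r, g (r + P) = g r) (a : ℕ) :
    ∑ r ∈ range P, g (r + a) = ∑ r ∈ range P, g r := by
  induction a with
  | zero => simp
  | succ a ih =>
    rw [← ih]
    have h1 := sum_range_succ (fun r : ℕ => g ((r : ℤ) + a)) P
    have h2 := sum_range_succ' (fun r : ℕ => g ((r : ℤ) + a)) P
    have h3 : g ((P : ℤ) + a) = g ((0 : ℕ) + (a : ℤ)) := by
      rw [add_comm, hg]; simp
    rw [h1, h3] at h2
    have h4 : ∑ r ∈ range P, g ((r : ℤ) + a) =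
        ∑ r ∈ range P, g (((r + 1 : ℕ) : ℤ) + a) := by linarith
    rw [h4]
    apply sum_congr rfl
    intro r _
    congr 1; push_cast; ring

/-- the sum over pairs of frequencies -/
lemma pairs {ι : Type} (s : Finset ι) (μ : ι → ℝ) (x : ι → ℝ) (hμ : ∀ r ∈ s, 0 ≤ μ r)
    (Q : Finset ℕ) (k : ℕ) :
    ∑ q ∈ Q, ‖∑ r ∈ s, (μ r : ℂ) * ee (-(x r * (q * k)))‖ ^ 2 ≤
      ∑ r ∈ s, ∑ r' ∈ s, μ r * μ r' * ‖∑ q ∈ Q, ee (q * (-(k * (x r - x r'))))‖ := by
  have h1 : ((∑ q ∈ Q, ‖∑ r ∈ s, (μ r : ℂ) * ee (-(x r * (q * k)))‖ ^ 2 : ℝ) : ℂ) =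
      ∑ r ∈ s, ∑ r' ∈ s, (μ r : ℂ) * μ r' * ∑ q ∈ Q, ee (q * (-(k * (x r - x r')))) := by
    push_cast
    have h2 : ∀ q ∈ Q, (‖∑ r ∈ s, (μ r : ℂ) * ee (-(x r * (q * k)))‖ : ℂ) ^ 2 =
        ∑ r ∈ s, ∑ r' ∈ s, (μ r : ℂ) * μ r' * ee (q * (-(k * (x r - x r')))) := by
      intro q _
      rw [← Complex.mul_conj', map_sum, sum_mul_sum]
      apply sum_congr rfl
      intro r _
      apply sum_congr rfl
      intro r' _
      rw [map_mul, ee_conj, Complex.conj_ofReal]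
      have h3 : ee (-(x r * (q * k))) * ee (- -(x r' * (q * k))) =
          ee (q * (-(k * (x r - x r')))) := by
        rw [← ee_add]; congr 1; ring
      rw [← h3]; ring
    rw [sum_congr rfl h2, sum_comm]
    apply sum_congr rfl
    intro r _
    rw [sum_comm]
    apply sum_congr rfl
    intro r' _
    rw [mul_sum]
  have h2 : ∑ q ∈ Q, ‖∑ r ∈ s, (μ r : ℂ) * ee (-(x r * (q * k)))‖ ^ 2 =
      ‖((∑ q ∈ Q, ‖∑ r ∈ s, (μ r : ℂ) * ee (-(x r * (q * k)))‖ ^ 2 : ℝ) : ℂ)‖ := by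
    rw [Complex.norm_real, Real.norm_eq_abs, abs_of_nonneg]
    exact sum_nonneg fun q _ => by positivity
  rw [h2, h1]
  refine (norm_sum_le _ _).trans (sum_le_sum fun r hr => ?_)
  refine (norm_sum_le _ _).trans (sum_le_sum fun r' hr' => ?_)
  rw [norm_mul, norm_mul, Complex.norm_real, Complex.norm_real, Real.norm_eq_abs,
    Real.norm_eq_abs, abs_of_nonneg (hμ r hr), abs_of_nonneg (hμ r' hr')]

open Classical in
/-- an arc with much mass -/
lemma arc {ι : Type} (s : Finset ι) (μ : ι → ℝ) (x : ι → ℝ) (hμ : ∀ r ∈ s, 0 ≤ μ r)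
    (h1 : ∑ r ∈ s, μ r ≤ 1) (Q : Finset ℕ) (hQ : Q.Nonempty) (k B D : ℕ) (hk : 1 ≤ k)
    (hkD : k ≤ D) (hB : 1 ≤ B) (c δ : ℝ) (hc : 0 < c) (hδ : 0 ≤ δ)
    (hS : ∀ β : ℝ, c / 4 * Q.card ≤ ‖∑ q ∈ Q, ee (q * β)‖ →
      ∃ b : ℕ, 1 ≤ b ∧ b ≤ B ∧ nd (b * β) ≤ δ)
    (h2 : 3 / 4 * c * Q.card ≤ ∑ q ∈ Q, ‖∑ r ∈ s, (μ r : ℂ) * ee (-(x r * (q * k)))‖ ^ 2) :
    ∃ r₀ ∈ s, c / (2 * B ^ 2 * D) ≤ ∑ r ∈ s.filter (fun r => nd (x r - x r₀) ≤ 2 * δ), μ r := by
  have hQc : (0 : ℝ) < Q.card := by exact_mod_cast hQ.card_pos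
  -- the share of the pairs whose difference is near a fraction
  set maj : ℝ → Prop := fun β => ∃ b : ℕ, 1 ≤ b ∧ b ≤ B ∧ nd (b * β) ≤ δ with hmaj
  have h3 : c / 2 ≤ ∑ r' ∈ s, μ r' * ∑ r ∈ s, (if maj (-(k * (x r - x r'))) then μ r else 0) := by
    have h4 := pairs s μ x hμ Q k
    have h5 : ∀ r ∈ s, ∀ r' ∈ s, μ r * μ r' * ‖∑ q ∈ Q, ee (q * (-(k * (x r - x r'))))‖ ≤
        c / 4 * Q.card * (μ r * μ r') +
          Q.card * (μ r' * (if maj (-(k * (x r - x r'))) then μ r else 0)) := by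
      intro r hr r' hr'
      have hp : 0 ≤ μ r * μ r' := mul_nonneg (hμ r hr) (hμ r' hr')
      split_ifs with h6
      · have h7 : ‖∑ q ∈ Q, ee (q * (-(k * (x r - x r'))))‖ ≤ Q.card := by
          refine (norm_sum_le _ _).trans ?_
          simp [norm_ee]
        have h8 := mul_le_mul_of_nonneg_left h7 hp
        have h9 : 0 ≤ c / 4 * Q.card * (μ r * μ r') := by positivity
        nlinarith
      · have h7 : ‖∑ q ∈ Q, ee (q * (-(k * (x r - x r'))))‖ ≤ c / 4 * Q.card := by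
          by_contra h8
          exact h6 (hS _ (not_le.1 h8).le)
        have h8 := mul_le_mul_of_nonneg_left h7 hp
        nlinarith
    have h6 : ∑ r ∈ s, ∑ r' ∈ s, μ r * μ r' * ‖∑ q ∈ Q, ee (q * (-(k * (x r - x r'))))‖ ≤
        ∑ r ∈ s, ∑ r' ∈ s, (c / 4 * Q.card * (μ r * μ r') +
          Q.card * (μ r' * (if maj (-(k * (x r - x r'))) then μ r else 0))) :=
      sum_le_sum fun r hr => sum_le_sum fun r' hr' => h5 r hr r' hr'
    have h7 : ∑ r ∈ s, ∑ r' ∈ s, (c / 4 * Q.card * (μ r * μ r') +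
          Q.card * (μ r' * (if maj (-(k * (x r - x r'))) then μ r else 0))) =
        c / 4 * Q.card * (∑ r ∈ s, μ r) ^ 2 + Q.card *
          ∑ r' ∈ s, μ r' * ∑ r ∈ s, (if maj (-(k * (x r - x r'))) then μ r else 0) := by
      simp only [sum_add_distrib]
      congr 1
      · rw [sq, sum_mul_sum, mul_sum]
        exact sum_congr rfl fun r _ => by rw [mul_sum]
      · rw [sum_comm, mul_sum]
        exact sum_congr rfl fun r _ => by rw [mul_sum, mul_sum]
    have h8 : (∑ r ∈ s, μ r) ^ 2 ≤ 1 := by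
      have := sum_nonneg hμ
      nlinarith
    have h9 : 3 / 4 * c * Q.card ≤ c / 4 * Q.card + Q.card *
        ∑ r' ∈ s, μ r' * ∑ r ∈ s, (if maj (-(k * (x r - x r'))) then μ r else 0) := by
      have : c / 4 * Q.card * (∑ r ∈ s, μ r) ^ 2 ≤ c / 4 * Q.card * 1 :=
        mul_le_mul_of_nonneg_left h8 (by positivity)
      linarith
    have h10 : Q.card * (c / 2) ≤ Q.card *
        ∑ r' ∈ s, μ r' * ∑ r ∈ s, (if maj (-(k * (x r - x r'))) then μ r else 0) := by
      linarith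
    exact le_of_mul_le_mul_left h10 hQc
  -- one of them
  have h4 : ∃ r' ∈ s, c / 2 ≤ ∑ r ∈ s, (if maj (-(k * (x r - x r'))) then μ r else 0) := by
    by_contra hcon
    push Not at hcon
    have h5 : ∑ r' ∈ s, μ r' * ∑ r ∈ s, (if maj (-(k * (x r - x r'))) then μ r else 0) ≤
        ∑ r' ∈ s, μ r' * (c / 2) :=
      sum_le_sum fun r' hr' => mul_le_mul_of_nonneg_left (hcon r' hr').le (hμ r' hr')
    rw [← sum_mul] at h5
    have h6 : (∑ r ∈ s, μ r) * (c / 2) ≤ c / 2 := by nlinarith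
    have h7 : ∑ r' ∈ s, μ r' * ∑ r ∈ s, (if maj (-(k * (x r - x r'))) then μ r else 0) =
      c / 2 := le_antisymm (h5.trans h6) h3
    have h8 : ∑ r' ∈ s, μ r' * (c / 2) = c / 2 := by
      apply le_antisymm
      · rw [← sum_mul]; exact h6
      · rw [← sum_mul]; rw [h7] at h5; exact h5
    have h9 : ∑ r' ∈ s, μ r' * (c / 2 -
        ∑ r ∈ s, (if maj (-(k * (x r - x r'))) then μ r else 0)) = 0 := by
      have h9' : ∑ r' ∈ s, μ r' * (c / 2 -
          ∑ r ∈ s, (if maj (-(k * (x r - x r'))) then μ r else 0)) =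
          ∑ r' ∈ s, μ r' * (c / 2) -
            ∑ r' ∈ s, μ r' * ∑ r ∈ s, (if maj (-(k * (x r - x r'))) then μ r else 0) := by
        rw [← sum_sub_distrib]
        exact sum_congr rfl fun r' _ => mul_sub _ _ _
      rw [h9', h8, h7, sub_self]
    have h10 := (sum_eq_zero_iff_of_nonneg (fun r' hr' =>
      mul_nonneg (hμ r' hr') (sub_nonneg.2 (hcon r' hr').le))).1 h9
    have h11 : ∀ r' ∈ s, μ r' = 0 := by
      intro r' hr'
      rcases mul_eq_zero.1 (h10 r' hr') with h | h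
      · exact h
      · exact absurd (hcon r' hr') (by linarith)
    have h12 : ∑ r' ∈ s, μ r' * (c / 2) = 0 := by
      apply sum_eq_zero; intro r' hr'; rw [h11 r' hr', zero_mul]
    linarith
  obtain ⟨r', hr', h5⟩ := h4
  -- one fraction
  set T : Finset (ℕ × ℕ) := Icc 1 B ×ˢ range (B * k) with hT
  have h6 : ∑ r ∈ s, (if maj (-(k * (x r - x r'))) then μ r else 0) ≤
      ∑ p ∈ T, ∑ r ∈ s, (if nd (x r - x r' - (p.2 : ℝ) / ((p.1 * k : ℕ) : ℝ)) ≤ δ
        then μ r else 0) := by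
    rw [sum_comm]
    apply sum_le_sum
    intro r hr
    split_ifs with h7
    · obtain ⟨b, hb1, hb2, hb3⟩ := h7
      have h8 : nd (((b * k : ℕ) : ℝ) * (x r - x r')) ≤ δ := by
        rw [← nd_neg]
        have : -(((b * k : ℕ) : ℝ) * (x r - x r')) = (b : ℝ) * (-(k * (x r - x r'))) := by
          push_cast; ring
        rw [this]; exact hb3
      obtain ⟨j, hj, hj2⟩ := near_frac (b * k) (Nat.mul_pos hb1 hk) _ δ hδ h8
      have hjT : (b, j) ∈ T := by
        rw [hT, mem_product, mem_Icc, mem_range]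
        refine ⟨⟨hb1, hb2⟩, ?_⟩
        have := mem_range.1 hj
        exact this.trans_le (Nat.mul_le_mul_right k hb2)
      refine le_trans ?_ (single_le_sum (f := fun p : ℕ × ℕ =>
        if nd (x r - x r' - (p.2 : ℝ) / ((p.1 * k : ℕ) : ℝ)) ≤ δ then μ r else 0)
        (fun p _ => by
          show 0 ≤ (if nd (x r - x r' - (p.2 : ℝ) / ((p.1 * k : ℕ) : ℝ)) ≤ δ then μ r else 0)
          split_ifs
          · exact hμ r hr
          · exact le_rfl) hjT)
      show μ r ≤ if nd (x r - x r' - (j : ℝ) / ((b * k : ℕ) : ℝ)) ≤ δ then μ r else 0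
      rw [if_pos hj2]
    · apply sum_nonneg
      intro p _
      split_ifs
      · exact hμ r hr
      · exact le_rfl
  have hTc : (T.card : ℝ) ≤ B ^ 2 * D := by
    have : T.card ≤ B ^ 2 * D := by
      rw [hT, card_product, Nat.card_Icc, card_range]
      calc (B + 1 - 1) * (B * k) = B ^ 2 * k := by rw [Nat.add_sub_cancel]; ring
        _ ≤ B ^ 2 * D := Nat.mul_le_mul_left _ hkD
    exact_mod_cast this
  have hBR : (1 : ℝ) ≤ B := by exact_mod_cast hB
  have hDR : (1 : ℝ) ≤ D := by exact_mod_cast hk.trans hkD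
  have h7 : ∃ p ∈ T, c / (2 * B ^ 2 * D) ≤
      ∑ r ∈ s, (if nd (x r - x r' - (p.2 : ℝ) / ((p.1 * k : ℕ) : ℝ)) ≤ δ then μ r else 0) := by
    by_contra hcon
    push Not at hcon
    have hTne : T.Nonempty := ⟨(1, 0), by
      rw [hT, mem_product, mem_Icc, mem_range]
      exact ⟨⟨le_rfl, hB⟩, Nat.mul_pos hB hk⟩⟩
    have h8 := sum_lt_sum_of_nonempty hTne hcon
    rw [sum_const, nsmul_eq_mul] at h8
    have h9 : (T.card : ℝ) * (c / (2 * B ^ 2 * D)) ≤ c / 2 := by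
      have h10 : 0 ≤ c / (2 * B ^ 2 * D) := by positivity
      calc (T.card : ℝ) * (c / (2 * B ^ 2 * D)) ≤ (B ^ 2 * D) * (c / (2 * B ^ 2 * D)) :=
            mul_le_mul_of_nonneg_right hTc h10
        _ = c / 2 := by field_simp
    linarith
  obtain ⟨p, -, h8⟩ := h7
  rw [← sum_filter] at h8
  have hpos : 0 < c / (2 * B ^ 2 * D) := by positivity
  have hne : (s.filter fun r => nd (x r - x r' - (p.2 : ℝ) / ((p.1 * k : ℕ) : ℝ)) ≤ δ).Nonempty := by
    by_contra h9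
    rw [not_nonempty_iff_eq_empty] at h9
    rw [h9, sum_empty] at h8
    linarith
  obtain ⟨r₀, hr₀⟩ := hne
  rw [mem_filter] at hr₀
  refine ⟨r₀, hr₀.1, h8.trans ?_⟩
  apply sum_le_sum_of_subset_of_nonneg
  · intro r hr
    rw [mem_filter] at hr ⊢
    refine ⟨hr.1, ?_⟩
    have h9 : x r - x r₀ = (x r - x r' - (p.2 : ℝ) / ((p.1 * k : ℕ) : ℝ)) -
        (x r₀ - x r' - (p.2 : ℝ) / ((p.1 * k : ℕ) : ℝ)) := by ring
    rw [h9]
    have := nd_sub_le (x r - x r' - (p.2 : ℝ) / ((p.1 * k : ℕ) : ℝ))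
      (x r₀ - x r' - (p.2 : ℝ) / ((p.1 * k : ℕ) : ℝ))
    linarith [hr.2, hr₀.2]
  · intro r hr _
    exact hμ r (mem_filter.1 hr).1

end Pool.Agent.H70.STG
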