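import Pool.Agent.H70.STG.SPEC

/-!
# Stage 1 (MP_c59857_nt): large two-point correlations give a large Fourier coefficient on many
short windows, second part
-/

set_option autoImplicit false

namespace Pool.Agent.H70.STG

open Finset Pool.Agent.H6.N4D Pool.Agent.H93.EB

/-- the geometric sum at a small frequency -/
lemma geo_large (N1 : ℕ) (θ : ℝ) (h : nd θ * N1 ≤ 1 / 10) :
    4 / 5 * (N1 : ℝ) ≤ ‖∑ j ∈ range N1, ee (-((j : ℝ) * θ))‖ := by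
  obtain ⟨k, hk⟩ := exists_int θ
  have h1 : ∀ j ∈ range N1, 4 / 5 ≤ (ee (-((j : ℝ) * θ))).re := by
    intro j hj
    have hj' : (j : ℝ) ≤ N1 := by exact_mod_cast (mem_range.1 hj).le
    have h2 : ee (-((j : ℝ) * θ)) = ee (-((j : ℝ) * (θ - k))) := by
      have : -((j : ℝ) * θ) = -((j : ℝ) * (θ - k)) - (((j : ℤ) * k : ℤ) : ℝ) := by
        push_cast; ring
      rw [this, ee_sub_int]
    rw [h2, ee_re]
    have h3 : |2 * Real.pi * -((j : ℝ) * (θ - k))| ≤ 2 * Real.pi * (1 / 10) := by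
      rw [abs_mul, abs_of_pos (by positivity : (0 : ℝ) < 2 * Real.pi), abs_neg, abs_mul, hk,
        abs_of_nonneg (Nat.cast_nonneg j)]
      apply mul_le_mul_of_nonneg_left _ (by positivity)
      calc (j : ℝ) * nd θ ≤ N1 * nd θ := mul_le_mul_of_nonneg_right hj' (nd_nonneg _)
        _ = nd θ * N1 := by ring
        _ ≤ 1 / 10 := h
    have h4 : |2 * Real.pi * -((j : ℝ) * (θ - k))| ≤ 6284 / 10000 := by
      have := Real.pi_lt_d4
      linarith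
    have key : ∀ y : ℝ, |y| ≤ 6284 / 10000 → 4 / 5 ≤ Real.cos y := by
      intro y hy
      have h5 := Real.one_sub_sq_div_two_le_cos (x := y)
      have h6 : y ^ 2 ≤ (6284 / 10000) ^ 2 :=
        sq_le_sq' (by linarith [neg_abs_le y]) ((le_abs_self _).trans hy)
      linarith
    exact key _ h4
  calc 4 / 5 * (N1 : ℝ) = ∑ _j ∈ range N1, (4 / 5 : ℝ) := by
        rw [sum_const, card_range, nsmul_eq_mul]; ring
    _ ≤ ∑ j ∈ range N1, (ee (-((j : ℝ) * θ))).re := sum_le_sum h1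
    _ = (∑ j ∈ range N1, ee (-((j : ℝ) * θ))).re := by rw [Complex.re_sum]
    _ ≤ _ := Complex.re_le_norm _

/-- the sums over windows of length `N1` -/
noncomputable def Tw (F : ℕ → ℂ) (L N1 P r₀ : ℕ) (z : ℕ) : ℂ :=
  ∑ y ∈ range L, if y ≤ z ∧ z < y + N1 then F y * ee (-((r₀ : ℝ) * y / P)) else 0

lemma ft_Tw (F : ℕ → ℂ) (L N1 P r₀ : ℕ) (hP : L + N1 ≤ P) (r : ℕ) :
    ft (Tw F L N1 P r₀) P P r = ft F L P ((r : ℤ) + r₀) *
      ∑ j ∈ range N1, ee (-((j : ℝ) * ((r : ℝ) / P))) := by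
  unfold ft Tw
  have h1 : ∀ z ∈ range P, (∑ y ∈ range L, if y ≤ z ∧ z < y + N1 then
      F y * ee (-((r₀ : ℝ) * y / P)) else 0) * ee (-((((r : ℕ) : ℤ) : ℝ) * z / P)) =
      ∑ y ∈ range L, if y ≤ z ∧ z < y + N1 then
        F y * ee (-((r₀ : ℝ) * y / P)) * ee (-((r : ℝ) * z / P)) else 0 := by
    intro z _
    rw [sum_mul]
    apply sum_congr rfl
    intro y _
    split_ifs
    · push_cast; rfl
    · rw [zero_mul]
  rw [sum_congr rfl h1, sum_comm, sum_mul]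
  apply sum_congr rfl
  intro y hy
  have hy' := mem_range.1 hy
  rw [← sum_filter]
  have h2 : (range P).filter (fun z => y ≤ z ∧ z < y + N1) = Ico y (y + N1) := by
    ext z
    rw [mem_filter, mem_range, mem_Ico]
    omega
  rw [h2, sum_Ico_eq_sum_range, Nat.add_sub_cancel_left, mul_sum]
  apply sum_congr rfl
  intro j _
  have h3 : ee (-((r₀ : ℝ) * y / P)) * ee (-((r : ℝ) * ((y + j : ℕ) : ℝ) / P)) =
      ee (-((((r : ℤ) + (r₀ : ℤ) : ℤ) : ℝ) * y / P)) * ee (-((j : ℝ) * ((r : ℝ) / P))) := by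
    rw [← ee_add, ← ee_add]; congr 1; push_cast; ring
  rw [mul_assoc, h3]; ring

/-- an arc with much mass gives large coefficients on the short windows -/
lemma mass_windows (F : ℕ → ℂ) (L N1 P r₀ : ℕ) (hP : L + N1 ≤ P) (hP0 : 0 < P) (δ : ℝ)
    (h1 : δ * N1 ≤ 1 / 10) :
    16 / 25 * (N1 : ℝ) ^ 2 * ∑ r ∈ (range P).filter
        (fun r : ℕ => nd ((r : ℝ) / P - (r₀ : ℝ) / P) ≤ δ), ‖ft F L P r‖ ^ 2 ≤
      P * ∑ z ∈ range P, ‖Tw F L N1 P r₀ z‖ ^ 2 := by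
  have hPR : (P : ℝ) ≠ 0 := by exact_mod_cast hP0.ne'
  rw [← parseval (Tw F L N1 P r₀) P P le_rfl hP0]
  set g : ℤ → ℝ := fun r => if nd ((r : ℝ) / P - (r₀ : ℝ) / P) ≤ δ then ‖ft F L P r‖ ^ 2 else 0
    with hg
  have hper : ∀ r, g (r + P) = g r := by
    intro r
    simp only [hg]
    rw [ft_add F L P hP0]
    have : (((r + P : ℤ) : ℝ) / P - (r₀ : ℝ) / P) = ((r : ℝ) / P - (r₀ : ℝ) / P) + ((1 : ℤ) : ℝ) := by
      push_cast; field_simp; ring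
    rw [this, nd_add_int]
  have h2 := sum_shift g P hper r₀
  have h3 : ∑ r ∈ (range P).filter (fun r : ℕ => nd ((r : ℝ) / P - (r₀ : ℝ) / P) ≤ δ),
      ‖ft F L P r‖ ^ 2 = ∑ r ∈ range P, g r := by
    rw [sum_filter]
    apply sum_congr rfl
    intro r _
    simp only [hg]
    push_cast
    rfl
  rw [h3, ← h2, mul_sum]
  apply sum_le_sum
  intro r _
  rw [ft_Tw F L N1 P r₀ hP r, norm_mul, mul_pow]
  simp only [hg]
  split_ifs with h4
  · have h5 : (((r : ℤ) + r₀ : ℤ) : ℝ) / P - (r₀ : ℝ) / P = (r : ℝ) / P := by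
      push_cast; field_simp; ring
    rw [h5] at h4
    have h6 : nd ((r : ℝ) / P) * N1 ≤ 1 / 10 :=
      (mul_le_mul_of_nonneg_right h4 (Nat.cast_nonneg _)).trans h1
    have h7 := geo_large N1 _ h6
    have h8 : (4 / 5 * (N1 : ℝ)) ^ 2 ≤ ‖∑ j ∈ range N1, ee (-((j : ℝ) * ((r : ℝ) / P)))‖ ^ 2 :=
      pow_le_pow_left₀ (by positivity) h7 2
    have h9 : 0 ≤ ‖ft F L P ((r : ℤ) + r₀)‖ ^ 2 := by positivity
    nlinarith
  · rw [mul_zero]; positivity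

lemma norm_Tw_le (f : ℕ → ℝ) (hf : ∀ x, |f x| ≤ 1) (n L N1 P r₀ z : ℕ) :
    ‖Tw (fun y => (f (n + 1 + y) : ℂ)) L N1 P r₀ z‖ ≤ N1 := by
  unfold Tw
  rw [← sum_filter]
  refine (norm_sum_le_of _ _ (c := 1) ?_).trans ?_
  · intro y _
    rw [norm_mul, norm_ee, mul_one, Complex.norm_real, Real.norm_eq_abs]
    exact hf _
  · rw [one_mul]
    have h1 : ((range L).filter fun y => y ≤ z ∧ z < y + N1) ⊆ Ico (z + 1 - N1) (z + 1) := by
      intro y hy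
      rw [mem_filter] at hy
      rw [mem_Ico]
      omega
    have h2 := card_le_card h1
    rw [Nat.card_Ico] at h2
    exact_mod_cast h2.trans (by omega)

lemma norm_Tw_eq (f : ℕ → ℝ) (n L N1 P r₀ u : ℕ) (h1 : 1 ≤ N1) (hu : u + N1 ≤ L) :
    ‖Tw (fun y => (f (n + 1 + y) : ℂ)) L N1 P r₀ (N1 - 1 + u)‖ =
      N1 * ‖cr f N1 (n + u) ((r₀ : ℝ) / P)‖ := by
  have hN : (N1 : ℝ) ≠ 0 := by
    have : N1 ≠ 0 := by omega
    exact_mod_cast this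
  unfold Tw cr
  rw [norm_div, Complex.norm_natCast, mul_div_cancel₀ _ hN, ← sum_filter]
  have h2 : ((range L).filter fun y => y ≤ N1 - 1 + u ∧ N1 - 1 + u < y + N1) =
      Ico u (u + N1) := by
    ext y
    rw [mem_filter, mem_range, mem_Ico]
    omega
  have h3 : ∑ m ∈ Ioc (n + u) (n + u + N1), (f m : ℂ) * ee (-((r₀ : ℝ) / P * m)) =
      ee (-((r₀ : ℝ) / P * ((n : ℝ) + 1))) * ∑ y ∈ Ico u (u + N1), (f (n + 1 + y) : ℂ) *
        ee (-((r₀ : ℝ) * y / P)) := by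
    rw [mul_sum]
    symm
    apply sum_nbij' (fun y => n + 1 + y) (fun m => m - (n + 1))
    · intro y hy
      rw [mem_Ico] at hy
      rw [mem_Ioc]; omega
    · intro m hm
      rw [mem_Ioc] at hm
      rw [mem_Ico]; omega
    · intro y _; simp
    · intro m hm
      rw [mem_Ioc] at hm
      show n + 1 + (m - (n + 1)) = m
      omega
    · intro y _
      rw [mul_left_comm, ← ee_add]
      congr 2; push_cast; ring
  rw [h2, h3, norm_mul, norm_ee, one_mul]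

/-- the passage to the correlations -/
lemma windows_cr (f : ℕ → ℝ) (hf : ∀ x, |f x| ≤ 1) (n L N1 P r₀ : ℕ) (h1 : 1 ≤ N1)
    (hL : N1 ≤ L) (hP : L + N1 ≤ P) :
    ∑ z ∈ range P, ‖Tw (fun y => (f (n + 1 + y) : ℂ)) L N1 P r₀ z‖ ^ 2 ≤
      (N1 : ℝ) ^ 2 * (∑ z ∈ Ioc n (n + L), ‖cr f N1 z ((r₀ : ℝ) / P)‖ ^ 2 + 3 * N1) := by
  set T := Tw (fun y => (f (n + 1 + y) : ℂ)) L N1 P r₀ with hT
  have hN : (1 : ℝ) ≤ N1 := by exact_mod_cast h1
  have hb : ∀ z, ‖T z‖ ^ 2 ≤ (N1 : ℝ) ^ 2 := fun z =>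
    pow_le_pow_left₀ (norm_nonneg _) (norm_Tw_le f hf n L N1 P r₀ z) 2
  have hs : ∑ z ∈ range P, ‖T z‖ ^ 2 = ∑ z ∈ Ico 0 (N1 - 1), ‖T z‖ ^ 2 +
      ∑ z ∈ Ico (N1 - 1) L, ‖T z‖ ^ 2 + ∑ z ∈ Ico L (L + N1), ‖T z‖ ^ 2 +
      ∑ z ∈ Ico (L + N1) P, ‖T z‖ ^ 2 := by
    rw [sum_Ico_consecutive _ (Nat.zero_le _) (by omega : N1 - 1 ≤ L),
      sum_Ico_consecutive _ (Nat.zero_le _) (by omega : L ≤ L + N1),
      sum_Ico_consecutive _ (Nat.zero_le _) hP, range_eq_Ico]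
  have hA : ∑ z ∈ Ico 0 (N1 - 1), ‖T z‖ ^ 2 ≤ (N1 : ℝ) ^ 2 * (N1 - 1) := by
    calc ∑ z ∈ Ico 0 (N1 - 1), ‖T z‖ ^ 2 ≤ ∑ _z ∈ Ico 0 (N1 - 1), (N1 : ℝ) ^ 2 :=
          sum_le_sum fun z _ => hb z
      _ = (N1 : ℝ) ^ 2 * (N1 - 1) := by
          rw [sum_const, Nat.card_Ico, nsmul_eq_mul, Nat.sub_zero, Nat.cast_sub h1]
          push_cast; ring
  have hC : ∑ z ∈ Ico L (L + N1), ‖T z‖ ^ 2 ≤ (N1 : ℝ) ^ 2 * N1 := by
    calc ∑ z ∈ Ico L (L + N1), ‖T z‖ ^ 2 ≤ ∑ _z ∈ Ico L (L + N1), (N1 : ℝ) ^ 2 :=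
          sum_le_sum fun z _ => hb z
      _ = (N1 : ℝ) ^ 2 * N1 := by
          rw [sum_const, Nat.card_Ico, nsmul_eq_mul, Nat.add_sub_cancel_left]; ring
  have hD : ∑ z ∈ Ico (L + N1) P, ‖T z‖ ^ 2 = 0 := by
    apply sum_eq_zero
    intro z hz
    rw [mem_Ico] at hz
    have : T z = 0 := by
      rw [hT]; unfold Tw
      apply sum_eq_zero
      intro y hy
      rw [mem_range] at hy
      rw [if_neg]; omega
    rw [this, norm_zero]; norm_num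
  have hB : ∑ z ∈ Ico (N1 - 1) L, ‖T z‖ ^ 2 ≤
      (N1 : ℝ) ^ 2 * (∑ z ∈ Ioc n (n + L), ‖cr f N1 z ((r₀ : ℝ) / P)‖ ^ 2 + 1) := by
    rw [sum_Ico_eq_sum_range]
    have h2 : L - (N1 - 1) = (L - N1) + 1 := by omega
    rw [h2, sum_range_succ']
    have h3 : ‖T (N1 - 1 + 0)‖ ^ 2 ≤ (N1 : ℝ) ^ 2 * 1 := by rw [mul_one]; exact hb _
    have h4 : ∑ u ∈ range (L - N1), ‖T (N1 - 1 + (u + 1))‖ ^ 2 ≤
        (N1 : ℝ) ^ 2 * ∑ z ∈ Ioc n (n + L), ‖cr f N1 z ((r₀ : ℝ) / P)‖ ^ 2 := by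
      have h5 : ∀ u ∈ range (L - N1), ‖T (N1 - 1 + (u + 1))‖ ^ 2 =
          (N1 : ℝ) ^ 2 * ‖cr f N1 (n + (u + 1)) ((r₀ : ℝ) / P)‖ ^ 2 := by
        intro u hu
        rw [mem_range] at hu
        rw [hT, norm_Tw_eq f n L N1 P r₀ (u + 1) h1 (by omega), mul_pow]
      rw [sum_congr rfl h5, ← mul_sum]
      apply mul_le_mul_of_nonneg_left _ (by positivity)
      have h6 : ∑ u ∈ range (L - N1), ‖cr f N1 (n + (u + 1)) ((r₀ : ℝ) / P)‖ ^ 2 =
          ∑ z ∈ Ioc n (n + (L - N1)), ‖cr f N1 z ((r₀ : ℝ) / P)‖ ^ 2 := by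
        apply sum_nbij' (fun u => n + (u + 1)) (fun z => z - (n + 1))
        · intro u hu; rw [mem_range] at hu; rw [mem_Ioc]; omega
        · intro z hz; rw [mem_Ioc] at hz; rw [mem_range]; omega
        · intro u _; show n + (u + 1) - (n + 1) = u; omega
        · intro z hz; rw [mem_Ioc] at hz; show n + (z - (n + 1) + 1) = z; omega
        · intro u _; rfl
      rw [h6]
      apply sum_le_sum_of_subset_of_nonneg
      · intro z hz; rw [mem_Ioc] at hz ⊢; omega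
      · intro z _ _; positivity
    rw [mul_add]
    exact add_le_add h4 h3
  rw [hs, hD]
  have hN2 : 0 ≤ (N1 : ℝ) ^ 2 := by positivity
  nlinarith

end Pool.Agent.H70.STG
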