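import Pool.Agent.H70.STG.SPEC2

/-!
# Stage 1 (MP_c59857_nt): large two-point correlations give a large Fourier coefficient on many
short windows, the theorem
-/

set_option autoImplicit false

namespace Pool.Agent.H70.STG

open Finset Pool.Agent.H6.N4D Pool.Agent.H93.EB

/-- the truncated correlation -/
lemma corr_real (f : ℕ → ℝ) (n L h : ℕ) (hL : 0 < L) (hh : h < L) :
    ∑ r ∈ range (2 * L), ((‖ft (fun y => (f (n + 1 + y) : ℂ)) L (2 * L) r‖ ^ 2 /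
        (((2 * L : ℕ) : ℝ) * L) : ℝ) : ℂ) * ee (-(((r : ℝ) / ((2 * L : ℕ) : ℝ)) * h)) =
      (((∑ y ∈ range L, if y + h < L then f (n + 1 + y) * f (n + 1 + (y + h)) else 0) / L : ℝ) :
        ℂ) := by
  have hLR : (L : ℂ) ≠ 0 := by exact_mod_cast hL.ne'
  have h2 : ((2 * L : ℕ) : ℂ) ≠ 0 := by
    have : 2 * L ≠ 0 := by omega
    exact_mod_cast this
  have h1 := corr_nat (fun y => (f (n + 1 + y) : ℂ)) L h hL hh
  have h3 : ∀ r ∈ range (2 * L), ((‖ft (fun y => (f (n + 1 + y) : ℂ)) L (2 * L) r‖ ^ 2 /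
        (((2 * L : ℕ) : ℝ) * L) : ℝ) : ℂ) * ee (-(((r : ℝ) / ((2 * L : ℕ) : ℝ)) * h)) =
      ((‖ft (fun y => (f (n + 1 + y) : ℂ)) L (2 * L) r‖ : ℂ) ^ 2 *
        ee (-((r : ℝ) * ((h : ℝ) / ((2 * L : ℕ) : ℝ))))) / (((2 * L : ℕ) : ℂ) * L) := by
    intro r _
    have : -(((r : ℝ) / ((2 * L : ℕ) : ℝ)) * h) = -((r : ℝ) * ((h : ℝ) / ((2 * L : ℕ) : ℝ))) := by
      ring
    rw [this]
    push_cast
    ring
  rw [sum_congr rfl h3, ← sum_div, h1]
  have h4 : (∑ y ∈ range L, if y + h < L then (f (n + 1 + y) : ℂ) *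
      (starRingEnd ℂ) (f (n + 1 + (y + h)) : ℂ) else 0) =
      ((∑ y ∈ range L, if y + h < L then f (n + 1 + y) * f (n + 1 + (y + h)) else 0 : ℝ) : ℂ) := by
    rw [Complex.ofReal_sum]
    apply sum_congr rfl
    intro y _
    split_ifs
    · rw [Complex.conj_ofReal]; push_cast; rfl
    · push_cast; rfl
  rw [h4]
  push_cast
  field_simp

/-- truncation costs little -/
lemma trunc (f : ℕ → ℝ) (hf : ∀ x, |f x| ≤ 1) (n L h : ℕ) (hL : 0 < L) :
    |(∑ x ∈ Ioc n (n + L), f x * f (x + h)) / L -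
      (∑ y ∈ range L, if y + h < L then f (n + 1 + y) * f (n + 1 + (y + h)) else 0) / L| ≤
      (h : ℝ) / L := by
  have hLR : (0 : ℝ) < L := by exact_mod_cast hL
  have h1 : ∑ x ∈ Ioc n (n + L), f x * f (x + h) =
      ∑ y ∈ range L, f (n + 1 + y) * f (n + 1 + (y + h)) := by
    symm
    apply sum_nbij' (fun y => n + 1 + y) (fun x => x - (n + 1))
    · intro y hy; rw [mem_range] at hy; rw [mem_Ioc]; omega
    · intro x hx; rw [mem_Ioc] at hx; rw [mem_range]; omega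
    · intro y _; show n + 1 + y - (n + 1) = y; omega
    · intro x hx; rw [mem_Ioc] at hx; show n + 1 + (x - (n + 1)) = x; omega
    · intro y _; rw [add_assoc (n + 1)]
  rw [h1, ← sub_div, abs_div, abs_of_pos hLR]
  apply div_le_div_of_nonneg_right _ hLR.le
  rw [← sum_sub_distrib]
  have h2 : ∀ y ∈ range L, |f (n + 1 + y) * f (n + 1 + (y + h)) -
      (if y + h < L then f (n + 1 + y) * f (n + 1 + (y + h)) else 0)| ≤
      if L ≤ y + h then 1 else 0 := by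
    intro y _
    by_cases h3 : y + h < L
    · rw [if_pos h3, if_neg (by omega), sub_self, abs_zero]
    · rw [if_neg h3, if_pos (by omega), sub_zero, abs_mul]
      exact mul_le_one₀ (hf _) (abs_nonneg _) (hf _)
  refine (abs_sum_le_sum_abs _ _).trans ((sum_le_sum h2).trans ?_)
  rw [← sum_filter, sum_const, nsmul_eq_mul, mul_one]
  have h3 : ((range L).filter fun y => L ≤ y + h) ⊆ Ico (L - h) L := by
    intro y hy
    rw [mem_filter, mem_range] at hy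
    rw [mem_Ico]; omega
  have h4 := card_le_card h3
  rw [Nat.card_Ico] at h4
  exact_mod_cast h4.trans (by omega)

/-- SPEC. Large two-point correlations with the elements of `Q` give a frequency with a large
coefficient on many short windows. -/
theorem spec_gen (c : ℝ) (hc : 0 < c) (B D N : ℕ) (hB : 1 ≤ B) (hN : 1 ≤ N) (Q : Finset ℕ)
    (hQ : Q.Nonempty) (hQN : ∀ q ∈ Q, q ≤ 2 * N)
    (hS : ∀ β : ℝ, c / 4 * Q.card ≤ ‖∑ q ∈ Q, ee (q * β)‖ →
      ∃ b : ℕ, 1 ≤ b ∧ b ≤ B ∧ nd (b * β) ≤ (B : ℝ) / N)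
    (k : ℕ) (hk : 1 ≤ k) (hkD : k ≤ D) (f : ℕ → ℝ) (hf : ∀ x, |f x| ≤ 1) (n L : ℕ)
    (hL : 32 * (D : ℝ) * N ≤ c * L)
    (h : c * Q.card ≤ ∑ q ∈ Q, ((∑ x ∈ Ioc n (n + L), f x * f (x + q * k)) / L) ^ 2) :
    ∃ ξ : ℝ, ∀ N1 : ℕ, 1 ≤ N1 → 20 * B * N1 ≤ N → 30 * (N1 : ℝ) ≤ c / (2 * B ^ 2 * D) * L →
      c / (4 * B ^ 2 * D) * L ≤ ∑ z ∈ Ioc n (n + L), ‖cr f N1 z ξ‖ ^ 2 := by
  have hBR : (1 : ℝ) ≤ B := by exact_mod_cast hB
  have hDR : (1 : ℝ) ≤ D := by exact_mod_cast hk.trans hkD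
  have hNR : (1 : ℝ) ≤ N := by exact_mod_cast hN
  have hQc : (0 : ℝ) < Q.card := by exact_mod_cast hQ.card_pos
  have hLpos : (0 : ℝ) < L := by
    have h1 : 0 < 32 * (D : ℝ) * N := by positivity
    by_contra h2
    have h3 : (L : ℝ) = 0 := le_antisymm (not_lt.1 h2) (Nat.cast_nonneg _)
    rw [h3, mul_zero] at hL
    linarith
  have hL0 : 0 < L := by exact_mod_cast hLpos
  -- each correlation is at most one
  have hA1 : ∀ q, |(∑ x ∈ Ioc n (n + L), f x * f (x + q * k)) / L| ≤ 1 := by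
    intro q
    rw [abs_div, abs_of_pos hLpos, div_le_one hLpos]
    refine (abs_sum_le_sum_abs _ _).trans ?_
    calc ∑ x ∈ Ioc n (n + L), |f x * f (x + q * k)| ≤ ∑ _x ∈ Ioc n (n + L), (1 : ℝ) := by
          apply sum_le_sum
          intro x _
          rw [abs_mul]
          exact mul_le_one₀ (hf _) (abs_nonneg _) (hf _)
      _ = L := by simp
  have hc1 : c ≤ 1 := by
    have h1 : ∑ q ∈ Q, ((∑ x ∈ Ioc n (n + L), f x * f (x + q * k)) / L) ^ 2 ≤
        ∑ _q ∈ Q, (1 : ℝ) := by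
      apply sum_le_sum
      intro q _
      rw [← sq_abs]
      exact pow_le_one₀ (abs_nonneg _) (hA1 q)
    rw [sum_const, nsmul_eq_mul, mul_one] at h1
    have h2 := h.trans h1
    nlinarith
  have hDN : 32 * (D : ℝ) * N ≤ L := hL.trans (by nlinarith)
  set F : ℕ → ℂ := fun y => (f (n + 1 + y) : ℂ) with hF
  set P : ℕ := 2 * L with hP
  have hP0 : 0 < P := by omega
  have hPR : (0 : ℝ) < P := by exact_mod_cast hP0
  set μ : ℕ → ℝ := fun r => ‖ft F L P r‖ ^ 2 / ((P : ℝ) * L) with hμ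
  have hμ0 : ∀ r ∈ range P, 0 ≤ μ r := fun r _ => by rw [hμ]; positivity
  have hF1 : ∀ y, ‖F y‖ ≤ 1 := by
    intro y
    rw [hF]
    show ‖(f (n + 1 + y) : ℂ)‖ ≤ 1
    rw [Complex.norm_real, Real.norm_eq_abs]; exact hf _
  have hμ1 : ∑ r ∈ range P, μ r ≤ 1 := by
    rw [hμ, ← sum_div, parseval F L P (by omega) hP0, div_le_one (by positivity)]
    apply mul_le_mul_of_nonneg_left _ hPR.le
    calc ∑ y ∈ range L, ‖F y‖ ^ 2 ≤ ∑ _y ∈ range L, (1 : ℝ) :=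
          sum_le_sum fun y _ => pow_le_one₀ (norm_nonneg _) (hF1 y)
      _ = L := by simp
  have h2 : 3 / 4 * c * Q.card ≤
      ∑ q ∈ Q, ‖∑ r ∈ range P, (μ r : ℂ) * ee (-(((r : ℝ) / P) * (q * k)))‖ ^ 2 := by
    have h3 : ∀ q ∈ Q, ((∑ x ∈ Ioc n (n + L), f x * f (x + q * k)) / L) ^ 2 - c / 8 ≤
        ‖∑ r ∈ range P, (μ r : ℂ) * ee (-(((r : ℝ) / P) * (q * k)))‖ ^ 2 := by
      intro q hq
      have hqk : ((q * k : ℕ) : ℝ) ≤ 2 * D * N := by
        have h4 : (q : ℝ) ≤ 2 * N := by exact_mod_cast hQN q hq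
        have h5 : (k : ℝ) ≤ D := by exact_mod_cast hkD
        push_cast
        calc (q : ℝ) * k ≤ (2 * N) * D := mul_le_mul h4 h5 (by positivity) (by positivity)
          _ = 2 * D * N := by ring
      have hlt : q * k < L := by
        have h6 : 0 < (D : ℝ) * N := by positivity
        have : ((q * k : ℕ) : ℝ) < L := by nlinarith
        exact_mod_cast this
      have h4 := corr_real f n L (q * k) hL0 hlt
      have h5 : ∑ r ∈ range P, (μ r : ℂ) * ee (-(((r : ℝ) / P) * (q * k))) =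
          (((∑ y ∈ range L, if y + q * k < L then f (n + 1 + y) * f (n + 1 + (y + q * k))
            else 0) / L : ℝ) : ℂ) := by
        rw [← h4]
        apply sum_congr rfl
        intro r _
        rw [show ((q * k : ℕ) : ℝ) = (q : ℝ) * k by push_cast; ring]
      rw [h5, Complex.norm_real, Real.norm_eq_abs, sq_abs]
      have h6 := trunc f hf n L (q * k) hL0
      set a := (∑ x ∈ Ioc n (n + L), f x * f (x + q * k)) / (L : ℝ) with ha
      set b := (∑ y ∈ range L, if y + q * k < L then f (n + 1 + y) * f (n + 1 + (y + q * k))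
            else 0) / (L : ℝ) with hb
      have h7 : ((q * k : ℕ) : ℝ) / L ≤ c / 16 := by
        rw [div_le_div_iff₀ hLpos (by norm_num)]
        nlinarith
      have h8 : |a - b| ≤ c / 16 := h6.trans h7
      have h9 : |a| ≤ 1 := hA1 q
      rw [abs_le] at h8 h9
      nlinarith [sq_nonneg (a - b)]
    have h4 : ∑ q ∈ Q, (((∑ x ∈ Ioc n (n + L), f x * f (x + q * k)) / L) ^ 2 - c / 8) ≤
        ∑ q ∈ Q, ‖∑ r ∈ range P, (μ r : ℂ) * ee (-(((r : ℝ) / P) * (q * k)))‖ ^ 2 :=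
      sum_le_sum h3
    rw [sum_sub_distrib, sum_const, nsmul_eq_mul] at h4
    nlinarith
  obtain ⟨r₀, -, hr₀⟩ := arc (range P) μ (fun r => (r : ℝ) / P) hμ0 hμ1 Q hQ k B D hk hkD hB c
    ((B : ℝ) / N) hc (by positivity) hS h2
  refine ⟨(r₀ : ℝ) / P, ?_⟩
  intro N1 h1 hN1 hN1L
  have hN1R : (1 : ℝ) ≤ N1 := by exact_mod_cast h1
  set c3 : ℝ := c / (2 * B ^ 2 * D) with hc3
  have hc3pos : 0 < c3 := by positivity
  have hB2 : (1 : ℝ) ≤ B ^ 2 := one_le_pow₀ hBR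
  have hc3le : c3 ≤ 1 := by
    rw [hc3, div_le_one (by positivity)]
    have : (1 : ℝ) ≤ B ^ 2 * D := by nlinarith
    nlinarith
  have hN1L' : N1 ≤ L := by
    have : (N1 : ℝ) ≤ L := by nlinarith
    exact_mod_cast this
  have hδ : 2 * ((B : ℝ) / N) * N1 ≤ 1 / 10 := by
    have h3 : 20 * (B : ℝ) * N1 ≤ N := by exact_mod_cast hN1
    have h4 : 2 * ((B : ℝ) / N) * N1 = 2 * B * N1 / N := by ring
    rw [h4, div_le_iff₀ (by linarith)]
    linarith
  have h5 := mass_windows F L N1 P r₀ (by omega) hP0 (2 * ((B : ℝ) / N)) hδ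
  have h6 := windows_cr f hf n L N1 P r₀ h1 hN1L' (by omega)
  have h7 : (P : ℝ) * L * c3 ≤ ∑ r ∈ (range P).filter
      (fun r : ℕ => nd ((r : ℝ) / P - (r₀ : ℝ) / P) ≤ 2 * ((B : ℝ) / N)), ‖ft F L P r‖ ^ 2 := by
    have h8 : ∑ r ∈ (range P).filter
        (fun r : ℕ => nd ((r : ℝ) / P - (r₀ : ℝ) / P) ≤ 2 * ((B : ℝ) / N)), ‖ft F L P r‖ ^ 2 =
        (P : ℝ) * L * ∑ r ∈ (range P).filter
          (fun r : ℕ => nd ((r : ℝ) / P - (r₀ : ℝ) / P) ≤ 2 * ((B : ℝ) / N)), μ r := by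
      rw [mul_sum]
      apply sum_congr rfl
      intro r _
      rw [hμ]
      field_simp
    rw [h8]
    apply mul_le_mul_of_nonneg_left _ (by positivity)
    exact hr₀
  set Z : ℝ := ∑ z ∈ Ioc n (n + L), ‖cr f N1 z ((r₀ : ℝ) / P)‖ ^ 2 with hZ
  have hNN : 0 < (N1 : ℝ) ^ 2 := by positivity
  have h8 : 16 / 25 * (N1 : ℝ) ^ 2 * ((P : ℝ) * L * c3) ≤ P * ((N1 : ℝ) ^ 2 * (Z + 3 * N1)) := by
    calc 16 / 25 * (N1 : ℝ) ^ 2 * ((P : ℝ) * L * c3) ≤ 16 / 25 * (N1 : ℝ) ^ 2 *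
          ∑ r ∈ (range P).filter (fun r : ℕ => nd ((r : ℝ) / P - (r₀ : ℝ) / P) ≤
            2 * ((B : ℝ) / N)), ‖ft F L P r‖ ^ 2 :=
          mul_le_mul_of_nonneg_left h7 (by positivity)
      _ ≤ _ := h5
      _ ≤ _ := mul_le_mul_of_nonneg_left h6 hPR.le
  have h9 : 16 / 25 * (L * c3) ≤ Z + 3 * N1 := by
    have h10 : ((P : ℝ) * (N1 : ℝ) ^ 2) * (16 / 25 * (L * c3)) ≤
        ((P : ℝ) * (N1 : ℝ) ^ 2) * (Z + 3 * N1) := by linarith
    exact le_of_mul_le_mul_left h10 (by positivity)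
  have h10 : c / (4 * B ^ 2 * D) = c3 / 2 := by rw [hc3]; field_simp; ring
  rw [h10]
  nlinarith

end Pool.Agent.H70.STG
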